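import Pool.Agent.H36C.Absorb
import Pool.Agent.H18C.Near

/-!
# A part whose attaching vertex is near to it is not helped
-/

namespace Pool.Agent.H36C

open List Pool.Agent.TF82 Pool.Agent.TFC Pool.Agent.TFB Pool.Agent.H62P Pool.Agent.EG31
  Pool.Agent.H18C

universe u

set_option linter.unusedSectionVars false
set_option linter.unusedVariables false

variable {V : Type u} [DecidableEq V]

theorem chain_reach {G : SimpleGraph V} {U : Finset V} : ∀ {l : List V}, l.IsChain G.Adj →
    (∀ y ∈ l, y ∈ U) → ∀ a ∈ l, ∀ b ∈ l, Reach G U a b := by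
  intro l
  induction l with
  | nil => intro _ _ a ha; simp at ha
  | cons p l ih =>
    intro hch hU
    rcases l with _ | ⟨q, l⟩
    · intro a ha b hb
      simp only [List.mem_cons, List.not_mem_nil, or_false] at ha hb
      rw [ha, hb]
      exact Relation.ReflTransGen.refl
    · rw [List.isChain_cons_cons] at hch
      have ih' := ih hch.2 (fun y hy => hU y (List.mem_cons_of_mem _ hy))
      have hpq : Reach G U p q := Relation.ReflTransGen.single
        ⟨hU p (by simp), hU q (by simp), hch.1⟩
      intro a ha b hb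
      rcases List.mem_cons.1 ha with h1 | h1 <;> rcases List.mem_cons.1 hb with h2 | h2
      · rw [h1, h2]
        exact Relation.ReflTransGen.refl
      · rw [h1]
        exact Relation.ReflTransGen.trans hpq (ih' q (by simp) b h2)
      · rw [h2]
        exact Relation.ReflTransGen.trans (ih' a h1 q (by simp)) hpq.symm
      · exact ih' a h1 b h2

/-- two vertices of a cycle are not separated by a third vertex -/
theorem cyc_reach {G : SimpleGraph V} {U : Finset V} {D : List V} (hD : CycL G D)
    (hU : ∀ y ∈ D, y ∈ U) {w a b : V} (ha : a ∈ D) (hb : b ∈ D) (haw : a ≠ w) (hbw : b ≠ w) :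
    Reach G (U.erase w) a b := by
  by_cases hw : w ∈ D
  · obtain ⟨X, Y, rfl⟩ := List.append_of_mem hw
    have h1 : CycL G ((X ++ [w]) ++ Y) := by simpa using hD
    have h2 := h1.rot
    obtain ⟨hn, -, hch, -⟩ := h2
    have h3 : (Y ++ X ++ [w]).IsChain G.Adj := by simpa using hch
    have h4 : (Y ++ X ++ [w]).Nodup := by simpa using hn
    rw [List.isChain_append] at h3
    rw [List.nodup_append] at h4
    refine chain_reach h3.1 ?_ a ?_ b ?_
    · intro y hy
      refine Finset.mem_erase.2 ⟨h4.2.2 y hy w (by simp), hU y ?_⟩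
      simp only [List.mem_append, List.mem_cons] at hy ⊢
      tauto
    · simp only [List.mem_append, List.mem_cons] at ha ⊢
      tauto
    · simp only [List.mem_append, List.mem_cons] at hb ⊢
      tauto
  · refine chain_reach (U := U.erase w) hD.2.2.1 (fun y hy => ?_) a ha b hb
    refine Finset.mem_erase.2 ⟨fun h => hw ?_, hU y hy⟩
    rw [← h]
    exact hy

theorem cw_of_cwb {G : SimpleGraph V} [DecidableRel G.Adj] {H S : Finset V} {b : ℕ}
    (h : CWb G H S b) : CW G H S := by
  intro I hI hind v hv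
  have := h I hI hind v hv
  omega

/-- A cover which cannot be shortened has no cycle without good vertices. -/
theorem cyc_has_good {G : SimpleGraph V} [DecidableRel G.Adj] {U W : Finset V} (hW : W ⊆ U)
    (hC : CW G U W) (hconn : Conn1 G U) {m : ℕ} (hmin : ∀ k, k < m → ¬ CovW G U W k)
    {L : List (List V)} (hlen : L.length ≤ m) (hL : Fam G L) (hLU : ∀ x ∈ L.flatten, x ∈ U)
    (hLc : ∀ x ∈ U \ W, x ∈ L.flatten) {D : List V} (hD : D ∈ L) : ∃ v ∈ D, Good G U W v := by
  classical
  by_contra hno
  push Not at hno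
  have hperm : L.Perm (D :: L.erase D) := List.perm_cons_erase hD
  have hpf : L.flatten.Perm (D ++ (L.erase D).flatten) := by
    have := hperm.flatten
    rwa [List.flatten_cons] at this
  have hl : L.length = (L.erase D).length + 1 := by
    rw [hperm.length_eq, List.length_cons]
  refine hmin (m - 1) (by omega) (absorb_cuts hW hC hconn ⟨L.erase D, by omega, ⟨?_, ?_⟩, ?_, ?_⟩)
  · intro c hc
    exact hL.cyc c (List.mem_of_mem_erase hc)
  · have h1 := hpf.nodup_iff.1 hL.nod
    exact (List.nodup_append.1 h1).2.1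
  · intro x hx
    exact hLU x (hpf.mem_iff.2 (List.mem_append_right _ hx))
  · intro x hx hxL hc
    have h1 := hpf.mem_iff.1 (hLc x hx)
    rcases List.mem_append.1 h1 with h1 | h1
    · exact hno x h1 ⟨(Finset.mem_sdiff.1 hx).1, (Finset.mem_sdiff.1 hx).2, hc⟩
    · exact hxL h1

/-- If some vertex of `C` is near `z` in `C + z`, then `z` does not help to cover `C`. -/
theorem no_help {G : SimpleGraph V} [DecidableRel G.Adj] {C S0 : Finset V} {z x : V}
    (hz : z ∉ C) (hS : S0 ⊆ C) (hCc : Conn1 G C) (hconn : Conn1 G (insert z C))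
    (hC : CW G (insert z C) (insert z S0)) (hx : x ∈ C)
    (hn : Near G (insert z C) (insert z S0) x z) {k : ℕ}
    (hk : CovW G (insert z C) (insert z S0) k) : CovW G C S0 k := by
  classical
  have hex : ∃ m, CovW G (insert z C) (insert z S0) m := ⟨k, hk⟩
  have hm1 := Nat.find_spec hex
  have hm2 : ∀ l, l < Nat.find hex → ¬ CovW G (insert z C) (insert z S0) l :=
    fun l hl => Nat.find_min hex hl
  have hmk : Nat.find hex ≤ k := Nat.find_min' hex hk
  obtain ⟨L, h1, h2, h3, h4⟩ := hm1
  have hzL : z ∉ L.flatten := by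
    intro hzL
    obtain ⟨D, hD, hzD⟩ := List.mem_flatten.1 hzL
    obtain ⟨v, hvD, hv⟩ := cyc_has_good (Finset.insert_subset_insert z hS) hC hconn hm2 h1 h2 h3
      h4 hD
    have hvz : v ≠ z := fun h => hv.nS (h ▸ Finset.mem_insert_self _ _)
    have hvC : v ∈ C := (Finset.mem_insert.1 hv.mem).resolve_left hvz
    have hxz : x ≠ z := fun h => hz (h ▸ hx)
    obtain ⟨w, hw, hwv, s1, s2⟩ := hn hxz v hv
    have hDU : ∀ y ∈ D, y ∈ insert z C := fun y hy => h3 y (List.mem_flatten.2 ⟨D, hD, hy⟩)
    have hzw : z = w := by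
      rcases s2 with s2 | s2
      · exact s2
      · by_contra hzw
        exact s2 (cyc_reach (h2.cyc D hD) hDU hvD hzD hwv.symm hzw)
    rcases s1 with s1 | s1
    · exact hxz (s1.trans hzw.symm)
    · apply s1
      rw [← hzw, Finset.erase_insert hz]
      exact hCc v hvC x hx
  refine CovW.mono (k := Nat.find hex) ⟨L, h1, h2, ?_, ?_⟩ hmk
  · intro y hy
    rcases Finset.mem_insert.1 (h3 y hy) with rfl | h
    · exact absurd hy hzL
    · exact h
  · intro y hy
    rw [Finset.mem_sdiff] at hy
    refine h4 y (Finset.mem_sdiff.2 ⟨Finset.mem_insert_of_mem hy.1, fun h => ?_⟩)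
    rcases Finset.mem_insert.1 h with rfl | h
    · exact hz hy.1
    · exact hy.2 h

theorem no_help_part {G : SimpleGraph V} [DecidableRel G.Adj] {H S C : Finset V} {z x u₀ : V}
    {b : ℕ} (h : Part G H z C) (hH : Conn1 G H) (hS : S ⊆ H) (hC : CWb G H S b) (hu : u₀ ∈ H)
    (hu' : u₀ ∉ insert z C) (hx : x ∈ C) (hn : Near G (insert z C) (insert z (S ∩ C)) x z)
    {k : ℕ} (hk : CovW G (insert z C) (insert z (S ∩ C)) k) : CovW G C (S ∩ C) k :=
  no_help h.znC Finset.inter_subset_right h.conn (h.conn_ins hH)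
    (cw_of_cwb (h.cwb hS hC hu hu')) hx hn hk

end Pool.Agent.H36C
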