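import Pool.Agent.H62P.Frame
import Pool.Agent.EG31.Gallai

/-!
# Absorption of uncovered cut vertices
-/

namespace Pool.Agent.H36C

open List Pool.Agent.TF82 Pool.Agent.TFC Pool.Agent.TFB Pool.Agent.H62P Pool.Agent.EG31

universe u

set_option linter.unusedSectionVars false
set_option linter.unusedVariables false

variable {V : Type u} [DecidableEq V]

/-- `x` is separated from `u` by `w` in `U` -/
def Beyond (G : SimpleGraph V) (U : Finset V) (u w x : V) : Prop :=
  x ∈ U ∧ x ≠ w ∧ ¬ Reach G (U.erase w) u x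

theorem Beyond.step {G : SimpleGraph V} {U : Finset V} {u w x z : V} (h : Beyond G U u w x)
    (hz : z ∈ U) (hxz : G.Adj x z) (hzw : z ≠ w) : Beyond G U u w z := by
  refine ⟨hz, hzw, fun hr => h.2.2 ?_⟩
  exact Relation.ReflTransGen.tail hr ⟨Finset.mem_erase.2 ⟨hzw, hz⟩,
    Finset.mem_erase.2 ⟨h.2.1, h.1⟩, hxz.symm⟩

theorem not_beyond_self {G : SimpleGraph V} {U : Finset V} {u w : V} : ¬ Beyond G U u w u :=
  fun h => h.2.2 Relation.ReflTransGen.refl

theorem not_beyond_nbr {G : SimpleGraph V} {U : Finset V} {u w x : V} (hu : u ∈ U) (huw : u ≠ w)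
    (hux : G.Adj u x) : ¬ Beyond G U u w x := by
  intro h
  exact not_beyond_self (h.step hu hux.symm huw)

theorem exists_beyond {G : SimpleGraph V} {U : Finset V} {u w : V} (hu : u ∈ U) (huw : u ≠ w)
    (hcut : ¬ Conn1 G (U.erase w)) : ∃ x, Beyond G U u w x := by
  unfold Conn1 at hcut
  push Not at hcut
  obtain ⟨a, ha, b, hb, hab⟩ := hcut
  by_cases h1 : Reach G (U.erase w) u a
  · refine ⟨b, (Finset.mem_erase.1 hb).2, (Finset.mem_erase.1 hb).1, fun h2 => hab ?_⟩
    exact Relation.ReflTransGen.trans h1.symm h2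
  · exact ⟨a, (Finset.mem_erase.1 ha).2, (Finset.mem_erase.1 ha).1, h1⟩

theorem beyond_disj {G : SimpleGraph V} {U : Finset V} (hconn : Conn1 G U) {u w w' x : V}
    (hu : u ∈ U) (hw : w ∈ U) (hw' : w' ∈ U) (hww : w ≠ w') (huw : G.Adj u w)
    (huw' : G.Adj u w') (h : Beyond G U u w x) (h' : Beyond G U u w' x) : False := by
  classical
  have hne : u ≠ w := huw.ne
  have hne' : u ≠ w' := huw'.ne
  have hcl : ∀ a ∈ U.filter (fun a => Beyond G U u w a ∧ Beyond G U u w' a), ∀ z ∈ U,
      G.Adj a z → z ∈ U.filter (fun a => Beyond G U u w a ∧ Beyond G U u w' a) := by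
    intro a ha z hz haz
    rw [Finset.mem_filter] at ha ⊢
    have hzw : z ≠ w := by
      rintro rfl
      exact not_beyond_nbr hu hne' huw (ha.2.2.step hz haz hww)
    have hzw' : z ≠ w' := by
      rintro rfl
      exact not_beyond_nbr hu hne huw' (ha.2.1.step hz haz hww.symm)
    exact ⟨hz, ha.2.1.step hz haz hzw, ha.2.2.step hz haz hzw'⟩
  have h1 := closed_reach hcl (hconn x h.1 u hu) (Finset.mem_filter.2 ⟨h.1, h, h'⟩)
  exact not_beyond_self (Finset.mem_filter.1 h1).2.1

/-- One uncovered vertex all of whose uncovered neighbours outside `W` are cut vertices is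
absorbed. -/
theorem absorb_cut_one {G : SimpleGraph V} [DecidableRel G.Adj] {U W : Finset V} (hW : W ⊆ U)
    (hconn : Conn1 G U) {u : V} (hu : u ∈ U \ W)
    (hC : ∀ I : Finset V, I ⊆ U \ W → G.IsIndepSet (I : Set V) → u ∈ I →
      I.card + 1 + W.card ≤ dU G U u)
    {L : List (List V)} (hL : Fam G L) (hLU : ∀ x ∈ L.flatten, x ∈ U) (huL : u ∉ L.flatten)
    (hunc : ∀ w ∈ U \ W, w ∉ L.flatten → G.Adj u w → ¬ Conn1 G (U.erase w)) :
    ∃ L2, Fam G L2 ∧ L2.length ≤ L.length ∧ ∀ x, x ∈ L2.flatten ↔ x ∈ L.flatten ∨ x = u := by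
  classical
  by_contra hgood
  have huU : u ∈ U := (Finset.mem_sdiff.1 hu).1
  set N : Finset V := L.flatten.toFinset.filter (fun w => G.Adj u w) with hN
  have hNm : ∀ w, w ∈ N ↔ w ∈ L.flatten ∧ G.Adj u w := by
    intro w; rw [hN, Finset.mem_filter, List.mem_toFinset]
  set B : Finset V := (U \ W).filter (fun w => w ∉ L.flatten ∧ G.Adj u w) with hB
  have hBm : ∀ w, w ∈ B ↔ (w ∈ U ∧ w ∉ W) ∧ w ∉ L.flatten ∧ G.Adj u w := by
    intro w; rw [hB, Finset.mem_filter, Finset.mem_sdiff]
  -- the vertices beyond the uncovered neighbours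
  have hex : ∀ w, ∃ x, w ∈ B → Beyond G U u w x := by
    intro w
    by_cases hw : w ∈ B
    · have h1 := (hBm w).1 hw
      obtain ⟨x, hx⟩ := exists_beyond huU h1.2.2.ne
        (hunc w (Finset.mem_sdiff.2 h1.1) h1.2.1 h1.2.2)
      exact ⟨x, fun _ => hx⟩
    · exact ⟨w, fun h => absurd h hw⟩
  choose t ht using hex
  set P : Finset V := N.image (prv L) with hP
  set T : Finset V := B.image t with hT
  have hPm : ∀ p ∈ P, ∃ w ∈ L.flatten, G.Adj u w ∧ prv L w = p := by
    intro p hp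
    obtain ⟨w, hw, rfl⟩ := Finset.mem_image.1 hp
    exact ⟨w, ((hNm w).1 hw).1, ((hNm w).1 hw).2, rfl⟩
  have hPL : ∀ p ∈ P, p ∈ L.flatten := by
    intro p hp
    obtain ⟨w, hw, _, rfl⟩ := hPm p hp
    exact prv_mem hL hw
  have hTm : ∀ x ∈ T, ∃ w ∈ B, t w = x := fun x hx => Finset.mem_image.1 hx
  -- nothing covered and near is beyond
  have hPB : ∀ p ∈ P, ∀ w ∈ B, ¬ Beyond G U u w p := by
    intro p hp w hw h
    obtain ⟨x, hx, hux, rfl⟩ := hPm p hp
    have h1 := (hBm w).1 hw
    have hxw : x ≠ w := fun h2 => h1.2.1 (h2 ▸ hx)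
    exact not_beyond_nbr huU h1.2.2.ne hux (h.step (hLU x hx) (prv_adj hL hx) hxw)
  have hPT : Disjoint P T := by
    rw [Finset.disjoint_left]
    intro p hp hpT
    obtain ⟨w, hw, rfl⟩ := hTm p hpT
    exact hPB _ hp w hw (ht w hw)
  have huPT : u ∉ P ∪ T := by
    intro h
    rcases Finset.mem_union.1 h with h | h
    · exact huL (hPL u h)
    · obtain ⟨w, hw, h1⟩ := hTm u h
      exact not_beyond_self (h1 ▸ ht w hw)
  have hnu : ∀ x ∈ P ∪ T, ¬ G.Adj u x := by
    intro x hx hux
    rcases Finset.mem_union.1 hx with h | h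
    · obtain ⟨w, hw, h1, rfl⟩ := hPm x h
      exact hgood (ins_fam hL huL hw h1 hux)
    · obtain ⟨w, hw, rfl⟩ := hTm x h
      exact not_beyond_nbr huU ((hBm w).1 hw).2.2.ne hux (ht w hw)
  have hind0 : ∀ a ∈ P ∪ T, ∀ b ∈ P ∪ T, a ≠ b → ¬ G.Adj a b := by
    have hPT' : ∀ a ∈ P, ∀ b ∈ T, ¬ G.Adj a b := by
      intro a ha b hb hab
      obtain ⟨w, hw, rfl⟩ := hTm b hb
      have haw : a ≠ w := fun h2 => ((hBm w).1 hw).2.1 (h2 ▸ hPL a ha)
      exact hPB a ha w hw ((ht w hw).step (hLU a (hPL a ha)) hab.symm haw)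
    intro a ha b hb hab hadj
    rcases Finset.mem_union.1 ha with ha | ha <;> rcases Finset.mem_union.1 hb with hb | hb
    · obtain ⟨w, hw, h1, rfl⟩ := hPm a ha
      obtain ⟨w', hw', h1', rfl⟩ := hPm b hb
      refine hgood (cross_fam hL huL hw hw' ?_ h1 h1' hadj)
      rintro rfl
      exact hab rfl
    · exact hPT' a ha b hb hadj
    · exact hPT' b hb a ha hadj.symm
    · obtain ⟨w, hw, rfl⟩ := hTm a ha
      obtain ⟨w', hw', rfl⟩ := hTm b hb
      have h1 := (hBm w).1 hw
      have h1' := (hBm w').1 hw'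
      have hww : w ≠ w' := by
        rintro rfl
        exact hab rfl
      have hne : t w' ≠ w := by
        intro h2
        exact not_beyond_nbr huU h1'.2.2.ne h1.2.2 (h2 ▸ ht w' hw')
      exact beyond_disj hconn huU h1.1.1 h1'.1.1 hww h1.2.2 h1'.2.2
        ((ht w hw).step (ht w' hw').1 hadj hne) (ht w' hw')
  set I : Finset V := insert u ((P ∪ T) \ W) with hI
  have hsub : I ⊆ U \ W := by
    intro x hx
    rcases Finset.mem_insert.1 hx with rfl | hx
    · exact hu
    · rw [Finset.mem_sdiff] at hx ⊢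
      refine ⟨?_, hx.2⟩
      rcases Finset.mem_union.1 hx.1 with h | h
      · exact hLU _ (hPL x h)
      · obtain ⟨w, hw, rfl⟩ := hTm x h
        exact (ht w hw).1
  have hind : G.IsIndepSet (I : Set V) := by
    intro a ha b hb hab
    rw [Finset.mem_coe, Finset.mem_insert] at ha hb
    rcases ha with rfl | ha <;> rcases hb with rfl | hb
    · exact absurd rfl hab
    · exact hnu b (Finset.mem_sdiff.1 hb).1
    · intro h; exact hnu a (Finset.mem_sdiff.1 ha).1 h.symm
    · exact hind0 a (Finset.mem_sdiff.1 ha).1 b (Finset.mem_sdiff.1 hb).1 hab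
  have key := hC I hsub hind (Finset.mem_insert_self _ _)
  have hcI : I.card = ((P ∪ T) \ W).card + 1 :=
    Finset.card_insert_of_notMem (fun h => huPT (Finset.mem_sdiff.1 h).1)
  have hcP : P.card = N.card := by
    refine Finset.card_image_of_injOn ?_
    intro a ha b hb hab
    exact prv_inj hL ((hNm a).1 (Finset.mem_coe.1 ha)).1 ((hNm b).1 (Finset.mem_coe.1 hb)).1 hab
  have hcT : T.card = B.card := by
    refine Finset.card_image_of_injOn ?_
    intro a ha b hb hab
    have ha' := Finset.mem_coe.1 ha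
    have hb' := Finset.mem_coe.1 hb
    by_contra hne
    have h1 := (hBm a).1 ha'
    have h1' := (hBm b).1 hb'
    have h2 := ht b hb'
    have h3 : t a = t b := hab
    rw [← h3] at h2
    exact beyond_disj hconn huU h1.1.1 h1'.1.1 hne h1.2.2 h1'.2.2 (ht a ha') h2
  have hcPT : (P ∪ T).card = P.card + T.card := Finset.card_union_of_disjoint hPT
  have hcs : ((P ∪ T) \ W).card + ((P ∪ T) ∩ W).card = (P ∪ T).card :=
    Finset.card_sdiff_add_card_inter _ _
  set C0 : Finset V := W.filter (fun x => x ∉ L.flatten ∧ G.Adj u x) with hC0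
  have hd : dU G U u ≤ N.card + B.card + C0.card := by
    unfold dU
    have : U.filter (fun w => G.Adj u w) ⊆ (N ∪ B) ∪ C0 := by
      intro w hw
      rw [Finset.mem_filter] at hw
      by_cases hwL : w ∈ L.flatten
      · exact Finset.mem_union_left _ (Finset.mem_union_left _ ((hNm w).2 ⟨hwL, hw.2⟩))
      · by_cases hwW : w ∈ W
        · exact Finset.mem_union_right _ (Finset.mem_filter.2 ⟨hwW, hwL, hw.2⟩)
        · exact Finset.mem_union_left _ (Finset.mem_union_right _
            ((hBm w).2 ⟨⟨hw.1, hwW⟩, hwL, hw.2⟩))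
    refine (Finset.card_le_card this).trans ((Finset.card_union_le _ _).trans ?_)
    exact Nat.add_le_add_right (Finset.card_union_le _ _) _
  have hdis : Disjoint ((P ∪ T) ∩ W) C0 := by
    rw [Finset.disjoint_left]
    intro x hx hx0
    rw [hC0, Finset.mem_filter] at hx0
    exact hnu x (Finset.mem_inter.1 hx).1 hx0.2.2
  have hle : ((P ∪ T) ∩ W).card + C0.card ≤ W.card := by
    rw [← Finset.card_union_of_disjoint hdis]
    exact Finset.card_le_card (Finset.union_subset Finset.inter_subset_right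
      (Finset.filter_subset _ _))
  omega

/-- If all uncovered vertices outside `W` are cut vertices, then they can be covered at no cost. -/
theorem absorb_cuts {G : SimpleGraph V} [DecidableRel G.Adj] {U W : Finset V} (hW : W ⊆ U)
    (hC : CW G U W) (hconn : Conn1 G U) {k : ℕ}
    (h : ∃ L : List (List V), L.length ≤ k ∧ Fam G L ∧ (∀ x ∈ L.flatten, x ∈ U) ∧
      ∀ x ∈ U \ W, x ∉ L.flatten → ¬ Conn1 G (U.erase x)) : CovW G U W k := by
  classical
  obtain ⟨L, hk, hL, hLU, hLc⟩ := h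
  obtain ⟨m, hm⟩ : ∃ m, ((U \ W).filter (fun x => x ∉ L.flatten)).card ≤ m := ⟨_, le_rfl⟩
  induction m generalizing L with
  | zero =>
    refine ⟨L, hk, hL, hLU, fun x hx => ?_⟩
    by_contra hxL
    have h1 : x ∈ (U \ W).filter (fun x => x ∉ L.flatten) := Finset.mem_filter.2 ⟨hx, hxL⟩
    have h2 := Finset.card_pos.2 ⟨x, h1⟩
    omega
  | succ m ih =>
    by_cases hall : ∀ x ∈ U \ W, x ∈ L.flatten
    · exact ⟨L, hk, hL, hLU, hall⟩
    push Not at hall
    obtain ⟨u, hu, huL⟩ := hall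
    obtain ⟨L2, h1, h2, h3⟩ := absorb_cut_one hW hconn hu (fun I hI hind huI => hC I hI hind u huI)
      hL hLU huL (fun w hw hwL _ => hLc w hw hwL)
    refine ih L2 (h2.trans hk) h1 ?_ ?_ ?_
    · intro x hx
      rcases (h3 x).1 hx with hx | rfl
      · exact hLU x hx
      · exact (Finset.mem_sdiff.1 hu).1
    · intro x hx hxL
      exact hLc x hx (fun h => hxL ((h3 x).2 (Or.inl h)))
    · have h4 : (U \ W).filter (fun x => x ∉ L2.flatten) ⊂
          (U \ W).filter (fun x => x ∉ L.flatten) := by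
        rw [Finset.ssubset_iff_of_subset]
        · refine ⟨u, Finset.mem_filter.2 ⟨hu, huL⟩, fun h => ?_⟩
          exact (Finset.mem_filter.1 h).2 ((h3 u).2 (Or.inr rfl))
        · intro x hx
          rw [Finset.mem_filter] at hx ⊢
          exact ⟨hx.1, fun h => hx.2 ((h3 x).2 (Or.inl h))⟩
      have := Finset.card_lt_card h4
      omega

end Pool.Agent.H36C
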